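import Pool.Agent.H3.SWP.Swp
import Pool.Agent.H3.D2G.Gchf
import Pool.Agent.H3.D2G.Afq

/-!
# Two swapped places of the list at the good windows

`att_lam`: at almost every window the numbers of the class on balls of a radius less than one are
attained. `SwA`: the coordinate of the place `k + 1` has closed labels of its level over the places
before `k`. `gs_chn_sw`: at a good window with `SwA` the list with the places `k` and `k + 1` swapped
is a chain, with the same levels. `gch_sw`: the structure `GCh` for the swapped list. `SwQ`: near a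
window either `SwA` holds at the windows of a closed set with the density point `x`, or labels of
this precision are absent at the windows of such a set; `aePG_sw`.
-/

set_option autoImplicit false

namespace Pool.SWP

open Finset MeasureTheory
open Pool.Agent.H49.Ent Pool.Agent.H32.Dense Pool.STK Pool.KA Pool.KSAT Pool.K2S Pool.PB Pool.GEN
open Pool.S6C Pool.GRW Pool.RCD Pool.PKG
open Pool.TOP (TopS)
open Pool.CHT
open Pool.OWN72 (Dsc dns_pt)
open Pool.LA91 (Chn ChG Att Ful FulC Kn AttG HerQ LamW.att')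
open Pool.AVG96

variable {m : ℕ}

/-- A part of a chain. -/
theorem chn_cut {S : PCl m} {c : ℕ → Fin m} {r₀ r : ℕ} {w u₀ u₁ : ℝ} {s rd : ℕ → ℝ}
    (h : Chn S c r₀ r w u₀ u₁ s rd) {n : ℕ} (hn0 : r₀ ≤ n) (hn : n ≤ r) :
    Chn S c r₀ n w u₀ u₁ s rd where
  hr := hn0
  inj := h.inj.mono fun _ hx => lt_of_lt_of_le hx hn
  w0 := h.w0
  wu0 := h.wu0
  u0 := h.u0
  wu1 := h.wu1
  u1 := h.u1
  s0 := fun i a b => h.s0 i a (b.trans_le hn)
  r1 := fun i a b => h.r1 i a (b.trans_le hn)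
  att := fun i a b => h.att i a (b.trans_le hn)
  base := h.base
  pre := fun k a b => h.pre k a (b.trans hn)
  ful := fun ρ hρ => Bas.mono 0 (h.ful ρ hρ) fun _ _ _ _ hA V z z' hz i a b =>
    hA V z z' hz i a (b.trans_le hn)

/-- **The numbers are attained** at almost every window, on the balls of a radius less than one. -/
theorem att_lam {S : PCl m} {Λ : Finset (Fin m) → Fin m → ℝ → ℝ → ℝ} (hL : LamW S Λ) :
    ∀ᵐ w : ℝ, 0 < w → w ≤ 1 → ∀ (I : Finset (Fin m)) (k : Fin m) (p r : ℝ), r < 1 →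
      p ≤ Λ I k w r → ∃ r' : ℝ, 0 ≤ r' ∧ r' < 1 ∧ Att S I k w p r' := by
  have h1 : ∀ᵐ w : ℝ, ∀ (I : Finset (Fin m)) (k : Fin m) (q : ℚ),
      ContinuousAt (fun x => Λ I k x q) w := by
    refine ae_all_iff.2 fun I => ae_all_iff.2 fun k => ae_all_iff.2 fun q => ?_
    have h2 : Monotone fun x => Λ I k x q := fun a b h =>
      hL.mono _ _ _ _ _ _ _ (Finset.Subset.refl _) h le_rfl
    filter_upwards [h2.countable_not_continuousAt.ae_notMem volume] with w hw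
    by_contra hcon
    exact hw hcon
  filter_upwards [h1] with w hw hw0 hw1 I k p r hr hp
  obtain ⟨q, hq0, hq1⟩ := exists_rat_btwn (show max r 0 < 1 from max_lt hr one_pos)
  have hrq : r ≤ q := (le_max_left r 0).trans hq0.le
  have h0q : (0 : ℝ) ≤ q := (le_max_right r 0).trans hq0.le
  refine ⟨q, h0q, hq1, LamW.att' hL I k hw0 hw1 fun x hx => ?_⟩
  have h3 : x < Λ I k w q :=
    hx.trans_le (hp.trans (hL.mono _ _ _ _ _ _ _ (Finset.Subset.refl _) le_rfl hrq))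
  obtain ⟨δ, hδ, h4⟩ := Metric.eventually_nhds_iff.1 ((hw I k q).eventually (lt_mem_nhds h3))
  refine ⟨w - δ / 2, by linarith, (h4 ?_).le⟩
  rw [Real.dist_eq, abs_lt]
  constructor <;> linarith

/-- **The place `k + 1` has closed labels of its level over the places before `k`.** -/
def SwA (S : PCl m) (c : ℕ → Fin m) (L : ℕ → ℝ → ℝ → ℝ) (k : ℕ) (w : ℝ) : Prop :=
  ∃ r : ℝ, 0 ≤ r ∧ r < 1 ∧ Att S ((range k).image c) (c (k + 1)) w (L (k + 1) w w) r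

theorem SwA.sub {S S' : PCl m} (hs : ∀ (τ : ℝ) (J : ℕ) (F : Fam m J) (A : F.Ω → Prop),
    S'.St τ J F A → S.St τ J F A) {c : ℕ → Fin m} {L : ℕ → ℝ → ℝ → ℝ} {k : ℕ} {w : ℝ}
    (h : SwA S c L k w) : SwA S' c L k w := by
  obtain ⟨r, h1, h2, h3⟩ := h
  exact ⟨r, h1, h2, h3.sub hs⟩

/-- **Labels of this precision are absent.** -/
def SwN (S : PCl m) (c : ℕ → Fin m) (L : ℕ → ℝ → ℝ → ℝ) (k : ℕ) (w : ℝ) : Prop :=
  ∀ r : ℝ, r < 1 → ∃ h : ℝ, h < L (k + 1) w w ∧ ∃ d : ℝ, 0 < d ∧ w + d ≤ 1 ∧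
    ∀ d' ≤ d, ∀ K, Bas S (fun J F A => ¬ Lb F ((range k).image c) (c (k + 1)) K ⌊d' * J⌋₊ J
      ⌊(w + d') * J⌋₊ ⌊(r + d') * J⌋₊ ⌊h * J⌋₊ A)

theorem SwN.sub {S S' : PCl m} (hs : ∀ (τ : ℝ) (J : ℕ) (F : Fam m J) (A : F.Ω → Prop),
    S'.St τ J F A → S.St τ J F A) {c : ℕ → Fin m} {L : ℕ → ℝ → ℝ → ℝ} {k : ℕ} {w : ℝ}
    (h : SwN S c L k w) : SwN S' c L k w := by
  intro r hr
  obtain ⟨p, hp, d, hd, hd1, h1⟩ := h r hr
  exact ⟨p, hp, d, hd, hd1, fun d' hd' K => (h1 d' hd' K).sub hs⟩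

variable {n : ℕ} {hn : 2 ≤ n} {S : PCl n} {P : ℝ → ℝ → ℝ} {rr : ℝ → ℝ}
  {P' : ℕ → List (Fin n) × Fin n → ℝ → ℝ → ℝ} {Λ : Finset (Fin n) → Fin n → ℝ → ℝ → ℝ}
  {PB : ℕ → List (Fin n) × Fin n → ℝ → ℝ → ℝ}

/-- **The chain of the swapped list** at a good window. -/
theorem gs_chn_sw (H : Pk hn S P rr P' Λ) (hTop : TopS n) (hF : FZX (n - 1)) {o : Od n} {w : ℝ}
    (hw : w ∈ Gs P rr P' Λ o) {S' : PCl n}
    (hs : ∀ (τ : ℝ) (J : ℕ) (F : Fam n J) (A : F.Ω → Prop), S'.St τ J F A → S.St τ J F A)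
    {k : ℕ} (hk0 : 1 ≤ k) (hk : k + 1 < n - 1)
    (h : SwA S' (cc hn o.1.1) (LvL hn P P' o) k w) {i : ℕ} (hi0 : 1 ≤ i) (hi : i ≤ n - 1) :
    ∃ (u₁ : ℝ) (rd : ℕ → ℝ), (∀ l < i, 0 ≤ rd l) ∧
      Chn S' (fun l => cc hn o.1.1 (sw k l)) 1 i w w u₁ (fun l => LvL hn P P' o (sw k l) w w)
        rd := by
  obtain ⟨u₁, rd, h0, h1⟩ := gs_chn1 H hTop hF hw (i := n - 1) (by omega) le_rfl
  obtain ⟨r, hr0, hr1, h2⟩ := h
  have hpos : ∀ (τ : ℝ) (J : ℕ) (F : Fam n J) (A : F.Ω → Prop), S'.St τ J F A → 0 < Pe F.p A := by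
    obtain ⟨al, g₀, s, d, e, K₀, N, hal, hg₀, hC⟩ := H.cl
    exact fun τ J F A hA => hC.pos τ J F A (hs τ J F A hA)
  refine ⟨u₁, _, fun l hl => ?_, chn_cut (chn_sw hpos (h1.sub hs) hk0 hk hr0 hr1 h2) hi0 hi⟩
  by_cases hlk : l = k
  · simp only [if_pos hlk]
    exact hr0
  · simp only [if_neg hlk]
    exact h0 _ (sw_mem (Or.inr hk) (by omega))

/-- The labels of a place of the swapped list. -/
theorem att_sw (H : Pk hn S P rr P' Λ) (hTop : TopS n) (hF : FZX (n - 1)) {o : Od n} {w : ℝ}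
    (hw : w ∈ Gs P rr P' Λ o) {S' : PCl n}
    (hs : ∀ (τ : ℝ) (J : ℕ) (F : Fam n J) (A : F.Ω → Prop), S'.St τ J F A → S.St τ J F A)
    {k : ℕ} (hk0 : 1 ≤ k) (hk : k + 1 < n - 1)
    (h : SwA S' (cc hn o.1.1) (LvL hn P P' o) k w) {r : ℕ} (hr1 : 1 ≤ r) (hr : r < n - 1) :
    AtT S' (fun l => cc hn o.1.1 (sw k l)) 1 r w (LvL hn P P' o (sw k r) w w) := by
  obtain ⟨u₁, rd, h1, h2⟩ := gs_chn_sw H hTop hF hw hs hk0 hk h (i := r + 1) (by omega) (by omega)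
  exact AtT.of (h1 r (by omega)) hw.1.1.2.1.le (h2.att r hr1 (by omega))

/-- **The structure `GCh` for the swapped list**, over the first place, for the places of the list and
for the target: one subclass for all. -/
theorem gch_sw (H : PkT hn S P rr P' Λ PB) (hTop : TopS n) (hF : FZX (n - 1)) :
    ∃ S₁ : PCl n, S₁.Ne ∧
      (∀ (τ : ℝ) (J : ℕ) (F : Fam n J) (A : F.Ω → Prop), S₁.St τ J F A → S.St τ J F A) ∧
      ∀ {S' : PCl n}, S'.Ne →
        (∀ (τ : ℝ) (J : ℕ) (F : Fam n J) (A : F.Ω → Prop), S'.St τ J F A → S₁.St τ J F A) →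
        ∀ {o : Od n} {G : Set ℝ}, IsClosed G → G ⊆ Gs P rr P' Λ o → ∀ {k : ℕ}, 1 ≤ k →
        k + 1 < n - 1 → (∀ w ∈ G, SwA S' (cc hn o.1.1) (LvL hn P P' o) k w) → ∀ {r : ℕ}, 1 ≤ r →
        r ≤ n - 1 → ∀ {s : ℝ} {η : ℚ → ℝ},
        (∀ w : ℚ, RNum S' (fun J F => ptr F J) (vg ((w : ℝ) + s)) (η w)) → ∀ {A B Λ' : ℝ},
        0 ≤ A → 0 < Λ' → ∀ {γ : ∀ J : ℕ, Fam n J → Type}
        {y : ∀ (J : ℕ) (F : Fam n J), F.Ω → γ J F},
        (∃ p₀ lam : ℝ, p₀ ≤ 1 ∧ Λ' ≤ lam ∧ B + Λ' ≤ p₀ ∧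
          Kn ((range 1).image (cc hn o.1.1)) p₀ lam y) →
        GCh S' (fun J F => ptr F J) y (fun l => cc hn o.1.1 (sw k l)) 1 r s A B Λ'
          (fun w l => LvL hn P P' o (sw k l) w w) G := by
  obtain ⟨S₁, h1, h2, h3⟩ := tgt_att H.toPk hTop hF
  refine ⟨S₁, h1, h2, ?_⟩
  intro S' hne hs₁ o G hG hGs k hk0 hk hsw r hr1 hr s η hη A B Λ' hA hΛ γ y kn
  have hs : ∀ (τ : ℝ) (J : ℕ) (F : Fam n J) (A : F.Ω → Prop), S'.St τ J F A → S.St τ J F A :=
    fun τ J F A h => h2 τ J F A (hs₁ τ J F A h)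
  have hswn : ∀ l ≤ n - 1, sw k l ≤ n - 1 := fun l hl => by
    have := sw_mem (k := k) (i := l) (n := n) (Or.inr (by omega)) (by omega)
    omega
  exact
    { ne := hne
      pos := by
        obtain ⟨al, g₀, s, d, e, K₀, N, hal, hg₀, hC⟩ := H.toPk.cl
        exact fun τ J F A h => hC.pos τ J F A (hs τ J F A h)
      tm := by
        obtain ⟨al, g₀, s, d, e, K₀, N, hal, hg₀, hC⟩ := H.toPk.cl
        exact ⟨6, fun τ J F A hτ h => Pool.GEN.N83.clx_tmc hC τ J F A hτ (hs τ J F A h)⟩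
      rn := fun q _ _ => ⟨η q, hη q⟩
      cl := hG
      ch := fun w hw _ _ => by
        obtain ⟨u₁, rd, k1, k2⟩ := gs_chn_sw H.toPk hTop hF (hGs hw) hs hk0 hk (hsw w hw) hr1 hr
        exact ⟨u₁, rd, fun l _ hl => k1 l hl, k2⟩
      att := fun w hw _ _ => by
        rcases hr.lt_or_eq with h | h
        · exact att_sw H.toPk hTop hF (hGs hw) hs hk0 hk (hsw w hw) hr1 h
        · subst h
          obtain ⟨rk, E, k1, k2, k3, k4, k5⟩ := h3 o w (hGs hw)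
          refine ⟨rk, E, k1, k3, fun h => by omega, ?_⟩
          have e1 : sw k (n - 1) = n - 1 := sw_gt hk
          show AtE S' ((range (n - 1)).image fun l => cc hn o.1.1 (sw k l))
            (cc hn o.1.1 (sw k (n - 1))) w (LvL hn P P' o (sw k (n - 1)) w w) rk E
          rw [img_sw (cc hn o.1.1) (Or.inr hk), e1]
          exact k5.sub hs₁
      pt := fun _ _ => ⟨fun x => x, fun _ => rfl⟩
      kn := by
        rw [img_sw (cc hn o.1.1) (Or.inl hk0)]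
        exact kn
      mono := fun l h1l hl v hv o' ho _ hvo _ =>
        law_gap (H.lawL o (sw k l)) (hGs hv).1.1.1.le hvo (hGs ho).1.1.2.1.le
          (lev_lt' H.toPk hTop hF (hGs ho) (hswn l (hl.trans hr)))
      A0 := hA
      Λ0 := hΛ }

/-- **The two cases near a window**: at the windows of a closed subset of `G` with the density point
`x`, the place `p + 1` has closed labels of its level over the places before `p` (`k₀ = 0`), or
labels of this precision are absent (`k₀ = 1`). -/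
def SwQ {n : ℕ} (p k₀ : ℕ) (S : PCl n) (_ : List (Fin n) × Fin n → ℝ → ℝ → ℝ) (_ : ℝ)
    (c : ℕ → Fin n) (_ : ℝ → ℝ → ℝ) (_ : ℝ → ℝ) (L _ : ℕ → ℝ → ℝ → ℝ) (_ : ℕ → Kg)
    (G : Set ℝ) (x : ℝ) : Prop :=
  p + 1 < n - 1 → k₀ ≤ 1 ∧ ∃ G' : Set ℝ, IsClosed G' ∧ G' ⊆ G ∧ x ∈ G' ∧ Dsc G' x ∧
    (k₀ = 0 → ∀ w ∈ G', SwA S c L p w) ∧ (k₀ = 1 → ∀ w ∈ G', SwN S c L p w)

theorem her_sw (n : ℕ) : HerQ (SwQ : PropG n ℕ) := by
  intro p k₀ S S' P θ c Pt r L T κ G x hs h h1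
  obtain ⟨a1, G', a2, a3, a4, a5, a6, a7⟩ := h h1
  exact ⟨a1, G', a2, a3, a4, a5, fun h w hw => (a6 h w hw).sub hs,
    fun h w hw => (a7 h w hw).sub hs⟩

/-- **It holds at almost every window.** -/
theorem aePG_sw (n : ℕ) : AePG n (SwQ : PropG n ℕ) := by
  intro hn S P r P' Λ PB PQ H hTop hF o G hG hGs
  refine ⟨S, H.toPk.ne, fun _ _ _ _ h => h, ?_⟩
  have hMG : MeasurableSet G := hG.measurableSet
  have hlam := H.toPk.lam
  -- the windows of the first case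
  obtain ⟨M, hM⟩ : ∃ M : ℕ → Set ℝ, M = fun p => ⋃ q : {q : ℚ // (q : ℝ) < 1},
      {w | dgP (LvL hn P P' o (p + 1)) w ≤
        Λ ((range p).image (cc hn o.1.1)) (cc hn o.1.1 (p + 1)) w (q : ℚ)} := ⟨_, rfl⟩
  have hMm : ∀ p, MeasurableSet (M p) := by
    intro p
    rw [hM]
    refine MeasurableSet.iUnion fun q => ?_
    refine measurableSet_le (dgP_mono (H.toPkT.lawL o (p + 1))).measurable (Monotone.measurable
      fun a b h => ?_)
    exact hlam.mono _ _ _ _ _ _ _ (Finset.Subset.refl _) h le_rfl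
  have hat : ∀ᵐ w : ℝ, ∀ p : ℕ, w ∈ G → w ∈ M p → SwA S (cc hn o.1.1) (LvL hn P P' o) p w := by
    filter_upwards [att_lam hlam] with w hw p hG' hwM
    have hg := (hGs hG').1.1
    rw [hM, Set.mem_iUnion] at hwM
    obtain ⟨⟨q, hq⟩, h1⟩ := hwM
    have h2 : dgP (LvL hn P P' o (p + 1)) w ≤
        Λ ((range p).image (cc hn o.1.1)) (cc hn o.1.1 (p + 1)) w (q : ℚ) := h1
    rw [dgP_eq _ hg.1.le hg.2.1.le] at h2
    exact hw hg.1 hg.2.1.le _ _ _ _ hq h2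
  have hno : ∀ w ∈ G, ∀ p : ℕ, p + 1 < n - 1 → w ∉ M p →
      SwN S (cc hn o.1.1) (LvL hn P P' o) p w := by
    intro w hw p hp hwM r' hr'
    have hg := (hGs hw).1.1
    obtain ⟨q, hq0, hq1⟩ := exists_rat_btwn hr'
    have h1 : Λ ((range p).image (cc hn o.1.1)) (cc hn o.1.1 (p + 1)) w r' <
        LvL hn P P' o (p + 1) w w := by
      rw [hM, Set.mem_iUnion] at hwM
      push Not at hwM
      have h2 := hwM ⟨q, hq1⟩
      have h3 : ¬ (dgP (LvL hn P P' o (p + 1)) w ≤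
        Λ ((range p).image (cc hn o.1.1)) (cc hn o.1.1 (p + 1)) w (q : ℚ)) := h2
      rw [dgP_eq _ hg.1.le hg.2.1.le, not_le] at h3
      exact (hlam.mono _ _ _ _ _ _ _ (Finset.Subset.refl _) le_rfl hq0.le).trans_lt h3
    obtain ⟨h', h2, h3⟩ := exists_between h1
    have h4 : LvL hn P P' o (p + 1) w w < 1 := lev_lt' H.toPk hTop hF (hGs hw) (by omega)
    obtain ⟨d, hd, hd1, h5⟩ := hlam.abs _ _ _ _ h' h2 (h3.trans h4).le
    exact ⟨h', h3, d, hd, hd1, h5⟩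
  have hfin : volume G ≠ ⊤ := by
    have h1 : G ⊆ Set.Icc 0 1 := fun x hx => ⟨(hGs hx).1.1.1.le, (hGs hx).1.1.2.1.le⟩
    exact ((measure_mono h1).trans_lt (by simp)).ne
  have hA : ∀ᵐ g : ℝ, ∀ p : ℕ, p + 1 < n - 1 → g ∈ G ∩ M p → ∃ G' : Set ℝ, IsClosed G' ∧
      G' ⊆ G ∧ g ∈ G' ∧ Dsc G' g ∧ ∀ w ∈ G', SwA S (cc hn o.1.1) (LvL hn P P' o) p w := by
    refine ae_all_iff.2 fun p => ?_
    by_cases hp : p + 1 < n - 1
    swap
    · exact Filter.Eventually.of_forall fun g h => absurd h hp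
    obtain ⟨X, hX⟩ : ∃ X : Set ℝ, X = toMeasurable volume {w | w ∈ G ∩ M p ∧
      ¬ SwA S (cc hn o.1.1) (LvL hn P P' o) p w} := ⟨_, rfl⟩
    have hX0 : volume X = 0 := by
      rw [hX, measure_toMeasurable]
      refine measure_eq_zero_iff_ae_notMem.2 ?_
      filter_upwards [hat] with w hw hcon
      exact hcon.2 (hw p hcon.1.1 hcon.1.2)
    have hXm : MeasurableSet X := by
      rw [hX]
      exact measurableSet_toMeasurable _ _
    have hXs : ∀ w ∈ G ∩ M p, w ∉ X → SwA S (cc hn o.1.1) (LvL hn P P' o) p w := by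
      intro w hw hwX
      by_contra hcon
      rw [hX] at hwX
      exact hwX (subset_toMeasurable _ _ ⟨hw, hcon⟩)
    have h1 := ae_of_closed ((hMG.inter (hMm p)).diff hXm) (ne_top_of_le_ne_top hfin
      (measure_mono fun x hx => hx.1.1)) (X := fun g => ∃ G' : Set ℝ, IsClosed G' ∧
      G' ⊆ G ∧ g ∈ G' ∧ Dsc G' g ∧ ∀ w ∈ G', SwA S (cc hn o.1.1) (LvL hn P P' o) p w)
      fun G' hG' hs => by
        filter_upwards [dns_pt G'] with g hg hgG
        exact ⟨G', hG', fun x hx => (hs hx).1.1, hgG, hg hgG,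
          fun w hw => hXs w (hs hw).1 (hs hw).2⟩
    filter_upwards [h1, measure_eq_zero_iff_ae_notMem.1 hX0] with g k1 k2 _ hg
    exact k1 ⟨hg, k2⟩
  have hB : ∀ᵐ g : ℝ, ∀ p : ℕ, p + 1 < n - 1 → g ∈ G \ M p → ∃ G' : Set ℝ, IsClosed G' ∧
      G' ⊆ G ∧ g ∈ G' ∧ Dsc G' g ∧ ∀ w ∈ G', SwN S (cc hn o.1.1) (LvL hn P P' o) p w := by
    refine ae_all_iff.2 fun p => ?_
    by_cases hp : p + 1 < n - 1
    swap
    · exact Filter.Eventually.of_forall fun g h => absurd h hp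
    have h1 := ae_of_closed (hMG.diff (hMm p)) (ne_top_of_le_ne_top hfin
      (measure_mono fun x hx => hx.1)) (X := fun g => ∃ G' : Set ℝ, IsClosed G' ∧
      G' ⊆ G ∧ g ∈ G' ∧ Dsc G' g ∧ ∀ w ∈ G', SwN S (cc hn o.1.1) (LvL hn P P' o) p w)
      fun G' hG' hs => by
        filter_upwards [dns_pt G'] with g hg hgG
        exact ⟨G', hG', fun x hx => (hs hx).1, hgG, hg hgG,
          fun w hw => hno w (hs hw).1 p hp (hs hw).2⟩
    filter_upwards [h1] with g k1 _ hg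
    exact k1 hg
  filter_upwards [hA, hB] with g k1 k2 hg κ _ p
  by_cases hp : p + 1 < n - 1
  swap
  · exact ⟨0, fun h => absurd h hp⟩
  by_cases hgM : g ∈ M p
  · obtain ⟨G', a1, a2, a3, a4, a5⟩ := k1 p hp ⟨hg, hgM⟩
    exact ⟨0, fun _ => ⟨zero_le_one, G', a1, a2, a3, a4, fun _ => a5, fun h => by omega⟩⟩
  · obtain ⟨G', a1, a2, a3, a4, a5⟩ := k2 p hp ⟨hg, hgM⟩
    exact ⟨1, fun _ => ⟨le_rfl, G', a1, a2, a3, a4, fun h => by omega, fun _ => a5⟩⟩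

end Pool.SWP
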