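import Pool.Agent.H3.V0F.Nla
import Pool.Agent.H60.ALT.Fmo

/-!
# A chain with two swapped places

`chn_sw`: if the coordinate of the place `k + 1` has closed labels of its natural precision over the
places before `k`, then the chain with the places `k` and `k + 1` swapped is a chain with natural
labels, with the same numbers.
-/

set_option autoImplicit false

namespace Pool.SWP

open Finset Real MvPolynomial
open Pool.Agent.H49.Ent Pool.Agent.H32.Dense Pool.STK Pool.KA Pool.KSAT Pool.K2S Pool.PB Pool.GEN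
open Pool.S6C Pool.GRD Pool.RCD Pool.LA91
open Pool.ALT (ful_res)
open Pool.V0F (LbG few0_X)
open Pool.UNJ (ceI)

variable {m J : ℕ}

/-- The swap of the places `k` and `k + 1`. -/
def sw (k i : ℕ) : ℕ := if i = k then k + 1 else if i = k + 1 then k else i

theorem sw_k (k : ℕ) : sw k k = k + 1 := if_pos rfl

theorem sw_k1 (k : ℕ) : sw k (k + 1) = k := by
  unfold sw
  rw [if_neg (by omega), if_pos rfl]

theorem sw_ne {k i : ℕ} (h1 : i ≠ k) (h2 : i ≠ k + 1) : sw k i = i := by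
  unfold sw
  rw [if_neg h1, if_neg h2]

theorem sw_lt {k i : ℕ} (h : i < k) : sw k i = i := sw_ne (by omega) (by omega)

theorem sw_gt {k i : ℕ} (h : k + 1 < i) : sw k i = i := sw_ne (by omega) (by omega)

theorem sw_sw (k i : ℕ) : sw k (sw k i) = i := by
  by_cases h1 : i = k
  · rw [h1, sw_k, sw_k1]
  · by_cases h2 : i = k + 1
    · rw [h2, sw_k1, sw_k]
    · rw [sw_ne h1 h2, sw_ne h1 h2]

theorem sw_mem {k i n : ℕ} (hn : n ≤ k ∨ k + 1 < n) (h : i < n) : sw k i < n := by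
  unfold sw
  split_ifs <;> omega

theorem img_sw {α : Type} [DecidableEq α] (c : ℕ → α) {k n : ℕ} (hn : n ≤ k ∨ k + 1 < n) :
    (range n).image (fun i => c (sw k i)) = (range n).image c := by
  ext x
  rw [mem_image, mem_image]
  constructor
  · rintro ⟨i, hi, rfl⟩
    exact ⟨sw k i, mem_range.2 (sw_mem hn (mem_range.1 hi)), rfl⟩
  · rintro ⟨i, hi, rfl⟩
    exact ⟨sw k i, mem_range.2 (sw_mem hn (mem_range.1 hi)), by rw [sw_sw]⟩

theorem img_sw1 {α : Type} [DecidableEq α] (c : ℕ → α) {k r : ℕ} (hr : k + 1 < r) :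
    (range (k + 1)).image (fun i => c (sw k i)) ⊆ (range r).image c := by
  intro x hx
  obtain ⟨i, hi, rfl⟩ := mem_image.1 hx
  have h1 := mem_range.1 hi
  refine mem_image_of_mem c (mem_range.2 ?_)
  unfold sw
  split_ifs <;> omega

theorem img_sw0 {α : Type} [DecidableEq α] (c : ℕ → α) (k : ℕ) :
    (range k).image c ⊆ (range (k + 1)).image (fun i => c (sw k i)) := by
  intro x hx
  obtain ⟨i, hi, rfl⟩ := mem_image.1 hx
  have h1 := mem_range.1 hi
  refine mem_image.2 ⟨i, mem_range.2 (by omega), ?_⟩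
  rw [sw_lt h1]

/-- A label over more coordinates. -/
theorem att_up {S : PCl m} {I I' : Finset (Fin m)} {k : Fin m} {w p r : ℝ} (hI : I ⊆ I')
    (hw : w ≤ 1) (h : Att S I k w p r) : Att S I' k w p r := by
  intro e he
  obtain ⟨K, hK⟩ := h e he
  refine ⟨K, Bas.mono 0 hK ?_⟩
  intro J _ F A hG
  exact hG.mono hI le_rfl le_rfl le_rfl le_rfl (fl_le hw J) le_rfl le_rfl

/-- A label which is attained has no gradient exponent. -/
theorem LbG.of {S : PCl m} {I : Finset (Fin m)} {k : Fin m} {w p r : ℝ} (hr0 : 0 ≤ r)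
    (hr1 : r < 1) (hp : p < 1) (h : Att S I k w p r) : LbG S I k w p := by
  refine ⟨r, 0, hr0, hr1, le_rfl, by linarith, fun e he => ?_⟩
  obtain ⟨K, hK⟩ := h e he
  refine ⟨K, Bas.mono 0 hK ?_⟩
  intro J _ F A hG
  rw [zero_add]
  exact hG

/-- **The bits of a coordinate with a closed label** behind the exact coordinates of the label. -/
theorem dig_le {S : PCl m}
    (hpos : ∀ (τ : ℝ) (J : ℕ) (F : Fam m J) (A : F.Ω → Prop), S.St τ J F A → 0 < Pe F.p A)
    {I : Finset (Fin m)} {k : Fin m} {w p : ℝ} (h : LbG S I k w p) (hw : w ≤ 1) (hp : 0 ≤ p)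
    (hp1 : p ≤ 1) {ρ : ℝ} (hρ : 0 < ρ) : Bas S (fun J F A => 0 < Pe F.p A ∧
      ∃ (V : Type) (z : PtT F → V) (z' : LnT F → V),
        (∀ ω, A ω → z (ptr F J ω) = z' (slam F ⌊w * J⌋₊ ω)) ∧
        CH (Pool.Agent.H49.Ent.cond F.p A True) (fun ω => F.X J ω k)
          (fun ω => (z' (slam F ⌊w * J⌋₊ ω), (ceI I (fun _ => J) (F.x ω), F.W ω))) ≤
          ((1 - p) + ρ) * Real.log 2 * J) := by
  classical
  have hl2 : 1 / 2 ≤ Real.log 2 := by
    have := Real.log_two_gt_d9
    linarith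
  obtain ⟨e₀, he₀, h1⟩ := few0_X hpos h le_rfl hw hp (ρ / 4) (by linarith)
  obtain ⟨J₁, hJ₁⟩ := exists_nat_ge (2 / ρ)
  refine Bas.mono J₁ ((h1 0).and (pos_bas hpos)) ?_
  rintro J hJ F A ⟨h2, hA⟩
  have hJ0 : (0 : ℝ) ≤ J := Nat.cast_nonneg J
  have hJ2 : 1 ≤ ρ / 2 * J := by
    have h3 : (J₁ : ℝ) ≤ J := by exact_mod_cast hJ
    have h4 := hJ₁.trans h3
    rw [div_le_iff₀ hρ] at h4
    linarith
  have hq := isLaw_cond F.isLaw hA
  obtain ⟨u, hu⟩ : ∃ u : F.Ω → ℤ, u = fun ω => F.X ⌊p * J⌋₊ ω k := ⟨_, rfl⟩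
  obtain ⟨V, z, ⟨⟨φ, hφ⟩, ψ, hψ⟩, h3⟩ := h2 u (fun ω _ => by rw [hu])
  refine ⟨hA, V, φ, ψ, fun ω hω => ?_, ?_⟩
  · have e1 : z ω = φ (ptr F J ω) := hφ ω hω
    have e2 : z ω = ψ (slam F ⌊w * J⌋₊ ω) := hψ ω hω
    rw [← e1, ← e2]
  have hpJ : ⌊p * J⌋₊ ≤ J := Nat.floor_le_of_le (mul_le_of_le_one_left hJ0 hp1)
  have k1 := CH_le_add hq.nonneg (fun ω => F.X J ω k) u
    (fun ω => (ψ (slam F ⌊w * J⌋₊ ω), (ceI I (fun _ => J) (F.x ω), F.W ω)))
  have k2 : CH (Pool.Agent.H49.Ent.cond F.p A True) u (fun ω => (ψ (slam F ⌊w * J⌋₊ ω),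
      (ceI I (fun _ => J) (F.x ω), F.W ω))) ≤ ρ / 4 * J := by
    refine le_trans (CH_mono_cond hq.nonneg fun ω ω' hω hω' e => ?_) h3
    simp only [Prod.mk.injEq] at e ⊢
    refine ⟨?_, e.2⟩
    have e1 : z ω = ψ (slam F ⌊w * J⌋₊ ω) := hψ ω (of_cond_pos hω)
    have e2 : z ω' = ψ (slam F ⌊w * J⌋₊ ω') := hψ ω' (of_cond_pos hω')
    rw [e1, e2, e.1]
  have k3 := Vd.CH_digits hq hpJ (fun ω => F.x ω k) (fun ω => (u ω, (ψ (slam F ⌊w * J⌋₊ ω),
    (ceI I (fun _ => J) (F.x ω), F.W ω)))) (fun ω ω' _ _ e => by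
      rw [hu] at e
      simp only [Prod.mk.injEq] at e
      exact e.1)
  have k4 : CH (Pool.Agent.H49.Ent.cond F.p A True) (fun ω => F.X J ω k)
      (fun ω => (u ω, (ψ (slam F ⌊w * J⌋₊ ω), (ceI I (fun _ => J) (F.x ω), F.W ω)))) ≤
      ((J : ℝ) - ⌊p * J⌋₊) * Real.log 2 := k3
  have k5 : (J : ℝ) - ⌊p * J⌋₊ ≤ (1 - p) * J + 1 := by
    have := Nat.lt_floor_add_one (p * (J : ℝ))
    linarith
  have k6 : ((J : ℝ) - ⌊p * J⌋₊) * Real.log 2 ≤ ((1 - p) * J + ρ / 2 * J) * Real.log 2 :=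
    mul_le_mul_of_nonneg_right (by linarith) (by linarith)
  have k7 : ρ / 4 * J ≤ ρ / 2 * J * Real.log 2 := by
    have : 0 ≤ ρ * J := by positivity
    nlinarith
  calc _ ≤ ρ / 4 * J + ((1 - p) * J + ρ / 2 * J) * Real.log 2 := by linarith
    _ ≤ ρ / 2 * J * Real.log 2 + ((1 - p) * J + ρ / 2 * J) * Real.log 2 := by linarith
    _ = _ := by ring

/-- **A chain with two swapped places.** -/
theorem chn_sw {S : PCl m}
    (hpos : ∀ (τ : ℝ) (J : ℕ) (F : Fam m J) (A : F.Ω → Prop), S.St τ J F A → 0 < Pe F.p A)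
    {c : ℕ → Fin m} {r₀ r : ℕ} {w u₀ u₁ : ℝ} {s rd : ℕ → ℝ} (h : Chn S c r₀ r w u₀ u₁ s rd)
    {k : ℕ} (hk0 : r₀ ≤ k) (hk : k + 1 < r) {rd' : ℝ} (h0 : 0 ≤ rd') (h1 : rd' < 1)
    (hatt : Att S ((range k).image c) (c (k + 1)) w (s (k + 1)) rd') :
    Chn S (fun i => c (sw k i)) r₀ r w u₀ u₁ (fun i => s (sw k i))
      (fun i => if i = k then rd' else rd (sw k i)) := by
  classical
  have hw1 : w ≤ 1 := h.wu1.trans h.u1.le
  have hl2 : 0 < Real.log 2 := Real.log_pos one_lt_two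
  refine
    { hr := h.hr
      inj := ?_
      w0 := h.w0
      wu0 := h.wu0
      u0 := h.u0
      wu1 := h.wu1
      u1 := h.u1
      s0 := fun i hi hir => ?_
      r1 := fun i hi hir => ?_
      att := fun i hi hir => ?_
      base := fun u hu hu1 => ?_
      pre := fun n hn hnr => ?_
      ful := fun ρ hρ => ?_ }
  · intro a ha b hb hab
    have e1 := h.inj (show sw k a < r from sw_mem (Or.inr hk) ha)
      (show sw k b < r from sw_mem (Or.inr hk) hb) hab
    have e2 := congrArg (sw k) e1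
    rwa [sw_sw, sw_sw] at e2
  · have e1 : sw k i < r := sw_mem (Or.inr hk) hir
    have e2 : r₀ ≤ sw k i := by
      unfold sw
      split_ifs <;> omega
    exact h.s0 _ e2 e1
  · have e1 : sw k i < r := sw_mem (Or.inr hk) hir
    have e2 : r₀ ≤ sw k i := by
      unfold sw
      split_ifs <;> omega
    by_cases hik : i = k
    · simp only [if_pos hik]
      exact h1
    · simp only [if_neg hik]
      exact h.r1 _ e2 e1
  · rcases lt_trichotomy i k with hik | hik | hik
    · simp only [if_neg hik.ne, sw_lt hik]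
      rw [img_sw c (Or.inl hik.le)]
      exact h.att i hi hir
    · subst hik
      simp only [if_pos, sw_k]
      rw [img_sw c (Or.inl le_rfl)]
      exact hatt
    · rcases Nat.lt_or_ge (k + 1) i with h2 | h2
      · simp only [if_neg hik.ne', sw_gt h2]
        rw [img_sw c (Or.inr h2)]
        exact h.att i hi hir
      · obtain rfl : i = k + 1 := by omega
        simp only [if_neg (show k + 1 ≠ k by omega), sw_k1]
        exact att_up (img_sw0 c k) hw1 (h.att k hk0 (by omega))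
  · rw [img_sw c (Or.inl hk0)]
    exact h.base u hu hu1
  · by_cases h2 : n ≤ k ∨ k + 1 < n
    · rw [img_sw c h2]
      exact h.pre n hn hnr
    · obtain rfl : n = k + 1 := by omega
      exact ful_res hpos (h.pre r h.hr le_rfl) h.u1.le (img_sw1 c hk)
  · have hG := LbG.of h0 h1 (h.s0 (k + 1) (by omega) hk).2 hatt
    refine Bas.mono 0 ((h.ful (ρ / 4) (by linarith)).and (dig_le hpos hG hw1
      (h.s0 (k + 1) (by omega) hk).1 (h.s0 (k + 1) (by omega) hk).2.le
      (show (0 : ℝ) < ρ / 2 by linarith))) ?_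
    rintro J - F A ⟨h2, hA, V₁, z₁, z₁', hz₁, h3⟩ V z z' hz i hi hir
    have hJ0 : (0 : ℝ) ≤ J := Nat.cast_nonneg J
    have hq := isLaw_cond F.isLaw hA
    have hρJ : 0 ≤ ρ * Real.log 2 * J := by positivity
    rcases lt_trichotomy i k with hik | hik | hik
    · have h4 := h2 V z z' hz i hi hir
      have e1 : (fun ω => ((fun l' : Fin i => F.X J ω (c (sw k l'))),
          z' (slam F ⌊w * J⌋₊ ω), F.W ω)) = fun ω => ((fun l' : Fin i => F.X J ω (c l')),
          z' (slam F ⌊w * J⌋₊ ω), F.W ω) := by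
        funext ω
        have e2 : (fun l' : Fin i => F.X J ω (c (sw k l'))) =
            fun l' : Fin i => F.X J ω (c l') := by
          funext l'
          rw [sw_lt (l'.2.trans hik)]
        rw [e2]
      show ((1 - s (sw k i)) - ρ) * Real.log 2 * J ≤ CH _ (fun ω => F.X J ω (c (sw k i))) _
      rw [e1, sw_lt hik]
      refine le_trans ?_ h4
      nlinarith
    · subst hik
      have h4 := h2 V z z' hz (i + 1) (by omega) hk
      show ((1 - s (sw i i)) - ρ) * Real.log 2 * J ≤ CH _ (fun ω => F.X J ω (c (sw i i))) _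
      rw [sw_k]
      refine le_trans ?_ (h4.trans (CH_mono_cond hq.nonneg fun ω ω' _ _ e => ?_))
      · nlinarith
      · simp only [Prod.mk.injEq] at e ⊢
        refine ⟨_root_.funext fun l' => ?_, e.2⟩
        have e1 := congrFun e.1 ⟨l', by omega⟩
        show F.X J ω (c (sw i l')) = F.X J ω' (c (sw i l'))
        rw [sw_lt l'.2]
        exact e1
    · rcases Nat.lt_or_ge (k + 1) i with h5 | h5
      · have h4 := h2 V z z' hz i hi hir
        show ((1 - s (sw k i)) - ρ) * Real.log 2 * J ≤ CH _ (fun ω => F.X J ω (c (sw k i))) _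
        rw [sw_gt h5]
        refine le_trans ?_ (h4.trans (CH_mono_cond hq.nonneg fun ω ω' _ _ e => ?_))
        · nlinarith
        · simp only [Prod.mk.injEq] at e ⊢
          refine ⟨_root_.funext fun l' => ?_, e.2⟩
          exact congrFun e.1 ⟨sw k l', sw_mem (Or.inr h5) l'.2⟩
      · obtain rfl : i = k + 1 := by omega
        -- the place `k` given the place `k + 1`
        have a1 := h2 (V × V₁) (fun a => (z a, z₁ a)) (fun a => (z' a, z₁' a))
          (fun ω hω => by rw [hz ω hω, hz₁ ω hω]) k hk0 (by omega)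
        have a2 := h2 (V × V₁) (fun a => (z a, z₁ a)) (fun a => (z' a, z₁' a))
          (fun ω hω => by rw [hz ω hω, hz₁ ω hω]) (k + 1) (by omega) hk
        obtain ⟨P, hP⟩ : ∃ P : F.Ω → Fin k → ℤ, P = fun ω (l : Fin k) => F.X J ω (c l) :=
          ⟨_, rfl⟩
        obtain ⟨X, hX⟩ : ∃ X : F.Ω → ℤ, X = fun ω => F.X J ω (c k) := ⟨_, rfl⟩
        obtain ⟨Y, hY⟩ : ∃ Y : F.Ω → ℤ, Y = fun ω => F.X J ω (c (k + 1)) := ⟨_, rfl⟩
        obtain ⟨Z, hZ⟩ : ∃ Z : F.Ω → (Fin k → ℤ) × (V × V₁) × (ℕ × F.ζ),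
          Z = fun ω => (P ω, (z' (slam F ⌊w * J⌋₊ ω), z₁' (slam F ⌊w * J⌋₊ ω)), F.W ω) :=
          ⟨_, rfl⟩
        have b1 : ((1 - s k) - ρ / 4) * Real.log 2 * J ≤
            CH (Pool.Agent.H49.Ent.cond F.p A True) X Z := by
          rw [hX, hZ, hP]
          exact a1
        have b2 : ((1 - s (k + 1)) - ρ / 4) * Real.log 2 * J ≤
            CH (Pool.Agent.H49.Ent.cond F.p A True) Y (fun ω => (X ω, Z ω)) := by
          refine a2.trans ?_
          rw [hY, hX, hZ, hP]
          refine CH_mono_cond hq.nonneg fun ω ω' _ _ e => ?_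
          simp only [Prod.mk.injEq] at e ⊢
          exact ⟨congrFun e.1 ⟨k, by omega⟩,
            _root_.funext fun l' => congrFun e.1 ⟨l', by omega⟩, e.2⟩
        have b3 : CH (Pool.Agent.H49.Ent.cond F.p A True) Y Z ≤
            ((1 - s (k + 1)) + ρ / 2) * Real.log 2 * J := by
          refine le_trans ?_ h3
          rw [hY, hZ, hP]
          refine CH_mono_cond hq.nonneg fun ω ω' _ _ e => ?_
          simp only [Prod.mk.injEq] at e ⊢
          refine ⟨e.2.1.2, _root_.funext fun l => ?_, e.2.2⟩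
          unfold ceI
          by_cases hl : l ∈ (range k).image c
          · rw [if_pos hl, if_pos hl]
            obtain ⟨i, hi, rfl⟩ := mem_image.1 hl
            exact congrFun e.1 ⟨i, mem_range.1 hi⟩
          · rw [if_neg hl, if_neg hl]
        have b4 := CH_bayes hq.nonneg X Y Z
        have b5 : CH (Pool.Agent.H49.Ent.cond F.p A True) X (fun ω => (Y ω, Z ω)) ≤
            CH (Pool.Agent.H49.Ent.cond F.p A True) (fun ω => F.X J ω (c (sw k (k + 1))))
              (fun ω => ((fun l' : Fin (k + 1) => F.X J ω (c (sw k l'))),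
                z' (slam F ⌊w * J⌋₊ ω), F.W ω)) := by
          rw [sw_k1, hX, hY, hZ, hP]
          refine CH_mono_cond hq.nonneg fun ω ω' _ _ e => ?_
          simp only [Prod.mk.injEq] at e ⊢
          refine ⟨_root_.funext fun l' => ?_, e.2.2.1.1, e.2.2.2⟩
          rcases Nat.lt_or_ge l' k with h6 | h6
          · rw [sw_lt h6]
            exact congrFun e.2.1 ⟨l', h6⟩
          · have h7 : (l' : ℕ) = k := by omega
            rw [h7, sw_k]
            exact e.1
        show ((1 - s (sw k (k + 1))) - ρ) * Real.log 2 * J ≤ _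
        refine le_trans ?_ b5
        rw [sw_k1, b4]
        nlinarith

end Pool.SWP
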